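import Pool.Agent.T9h21.DP.Spec

/-!
# DPA, pieces (13) const and (14) sqrt: the asymptotic forms
-/

open Finset
open scoped ENNReal

set_option autoImplicit false

namespace Pool.Agent.T9h51.DP

open Pool.Agent.T9h48.SC Pool.Agent.T9h48.TSP Pool.Agent.T9h21.DP

theorem tsp_nonneg {n : ℕ} (p : Fin n → ℤ × ℤ) : 0 ≤ tsp p :=
  Real.iInf_nonneg fun _ => Finset.sum_nonneg fun _ _ => Real.sqrt_nonneg _

theorem solves_mono {n : ℕ} {C : TropCircuit (Fin n × Fin n)} {N : ℕ} {ρ ρ' : ℝ} (h : ρ ≤ ρ')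
    (hC : Solves C N ρ) : Solves C N ρ' := by
  intro p hp hN
  obtain ⟨val, h1, h2, h3⟩ := hC p hp hN
  exact ⟨val, h1, h2, h3.trans (ENNReal.ofReal_le_ofReal
    (mul_le_mul_of_nonneg_right h (tsp_nonneg p)))⟩

/-- (13) -/
theorem const (h : ∀ m, S_fin m) : S_const := by
  intro ρ
  set ρ' : ℝ := max ρ 0 with hρ'
  have hρ0 : 0 ≤ ρ' := le_max_right _ _
  set L : ℕ := ⌈504 * ρ' + 2⌉₊ with hL
  have hL2 : 504 * ρ' + 2 ≤ (L : ℝ) := Nat.le_ceil _
  have hL1 : 1 ≤ L := by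
    have h1 : (1 : ℝ) ≤ L := by linarith
    exact_mod_cast h1
  set R : ℕ := 2 * L ^ 4 with hR
  have hR1 : 1 ≤ R := by
    have : 1 ≤ L ^ 4 := Nat.one_le_pow _ _ hL1
    omega
  have hLr : (0 : ℝ) < L := by exact_mod_cast hL1
  have hRr : (0 : ℝ) < R := by exact_mod_cast hR1
  have hden : (0 : ℝ) < 288 * ((R : ℝ) ^ L) ^ 2 * (L : ℝ) ^ 4 := by positivity
  set κ : ℝ := 1 / (288 * ((R : ℝ) ^ L) ^ 2 * (L : ℝ) ^ 4) with hκ
  have hκ0 : 0 < κ := by positivity
  refine ⟨κ / 6, by positivity, max (4 * L ^ 4 * (R ^ L) ^ 2) ⌈6 / κ⌉₊ + 1, ?_⟩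
  intro n hn C hC
  obtain ⟨m, rfl⟩ : ∃ m, n = m + 1 := ⟨n - 1, by omega⟩
  have hn1 : 4 * L ^ 4 * (R ^ L) ^ 2 ≤ m + 1 :=
    (le_max_left _ _).trans ((Nat.le_succ _).trans hn)
  have hn2 : 6 / κ ≤ (m : ℝ) + 1 := by
    have h1 : ⌈6 / κ⌉₊ ≤ m + 1 := (le_max_right _ _).trans ((Nat.le_succ _).trans hn)
    have h2 : ((⌈6 / κ⌉₊ : ℕ) : ℝ) ≤ ((m + 1 : ℕ) : ℝ) := by exact_mod_cast h1
    push_cast at h2
    exact (Nat.le_ceil _).trans h2
  have h1 := h m L R C ρ' hL1 le_rfl hn1 hρ0 (fun N => solves_mono (le_max_left _ _) (hC N)) hL2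
  by_contra hcon
  push Not at hcon
  set u : ℝ := κ / 6 * ((m + 1 : ℕ) : ℝ) with hu
  have hu1 : 1 ≤ u := by
    rw [hu]
    push_cast
    rw [div_le_iff₀ hκ0] at hn2
    linarith
  have hexp : 2 ≤ Real.exp u := by
    have h2 := Real.add_one_le_exp u
    linarith
  have h2 : (C.numAdd : ℝ) + 1 < Real.exp (2 * u) := by
    have h3 : Real.exp (2 * u) = Real.exp u * Real.exp u := by
      rw [← Real.exp_add]
      congr 1
      ring
    rw [h3]
    nlinarith
  have h3 : ((C.numAdd : ℝ) + 1) ^ 3 < Real.exp (2 * u) ^ 3 :=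
    pow_lt_pow_left₀ h2 (by positivity) (by norm_num)
  have h4 : Real.exp (2 * u) ^ 3 = Real.exp (((m : ℝ) + 1) / (288 * ((R : ℝ) ^ L) ^ 2 *
      (L : ℝ) ^ 4)) := by
    rw [← Real.exp_nat_mul]
    congr 1
    rw [hu, hκ]
    push_cast
    field_simp
    ring
  rw [h4] at h3
  exact absurd (h1.trans_lt h3) (lt_irrefl _)

/-- the numerical facts for large `x = log n` -/
theorem large {x : ℝ} (hx : 300000000 ≤ x) :
    1 ≤ Real.log x ∧ 1728 * x ^ 4 < Real.exp (x / 4) ∧ 240 * Real.log x ≤ x := by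
  have hx0 : 0 < x := by linarith
  refine ⟨?_, ?_, ?_⟩
  · rw [Real.le_log_iff_exp_le hx0]
    have := Real.exp_one_lt_d9
    linarith
  · have h1 := Real.pow_div_factorial_le_exp (x / 4) (by positivity) 5
    have h2 : (Nat.factorial 5 : ℝ) = 120 := by norm_num [Nat.factorial]
    rw [h2] at h1
    refine lt_of_lt_of_le ?_ h1
    have h3 : (x / 4) ^ 5 / 120 = x ^ 4 * x / 122880 := by ring
    rw [h3, lt_div_iff₀ (by norm_num)]
    have h4 : 0 < x ^ 4 := by positivity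
    nlinarith
  · have h1 : Real.log x = 2 * Real.log (√x) := by
      rw [Real.log_sqrt hx0.le]
      ring
    have h2 : 0 < √x := Real.sqrt_pos.mpr hx0
    have h3 := Real.log_le_sub_one_of_pos h2
    have h4 : √x * √x = x := Real.mul_self_sqrt hx0.le
    have h5 : 480 ≤ √x := Real.le_sqrt_of_sq_le (by linarith)
    rw [h1]
    nlinarith

/-- (14) -/
theorem sqrt (h : ∀ m, S_fin m) : S_sqrt := by
  refine ⟨1 / 40320, by norm_num, ⌈Real.exp 300000000⌉₊ + 1, ?_⟩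
  intro n hn C ρ hC hT
  obtain ⟨m, rfl⟩ : ∃ m, n = m + 1 := ⟨n - 1, by omega⟩
  set x : ℝ := Real.log ((m + 1 : ℕ) : ℝ) with hx
  have hn0 : (0 : ℝ) < ((m + 1 : ℕ) : ℝ) := by positivity
  have hex : Real.exp x = ((m + 1 : ℕ) : ℝ) := Real.exp_log hn0
  have hxl : 300000000 ≤ x := by
    rw [hx, Real.le_log_iff_exp_le hn0]
    have h1 : ⌈Real.exp 300000000⌉₊ ≤ m + 1 := (Nat.le_succ _).trans hn
    have h2 : ((⌈Real.exp 300000000⌉₊ : ℕ) : ℝ) ≤ ((m + 1 : ℕ) : ℝ) := by exact_mod_cast h1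
    exact (Nat.le_ceil _).trans h2
  obtain ⟨hl1, hl2, hl3⟩ := large hxl
  have hx0 : 0 < x := by linarith
  set l : ℝ := Real.log x with hl
  have hl0 : 0 < l := by linarith
  by_contra hcon
  push Not at hcon
  set ρ' : ℝ := max ρ 0 with hρ'
  have hρ0 : 0 ≤ ρ' := le_max_right _ _
  have hρx : ρ' < 1 / 40320 * x / l := max_lt hcon (by positivity)
  set L : ℕ := ⌊x / (40 * l)⌋₊ with hL
  have hLle : (L : ℝ) ≤ x / (40 * l) := Nat.floor_le (by positivity)
  have hLgt : x / (40 * l) < L + 1 := Nat.lt_floor_add_one _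
  have h3 : 3 ≤ x / (80 * l) := by
    rw [le_div_iff₀ (by positivity)]
    linarith
  have h40 : x / (40 * l) = 2 * (x / (80 * l)) := by
    field_simp
    ring
  have hL2 : 504 * ρ' + 2 ≤ (L : ℝ) := by
    have h4 : 504 * (1 / 40320 * x / l) = x / (80 * l) := by
      field_simp
      ring
    linarith
  have hL1 : 1 ≤ L := by
    have h1 : (1 : ℝ) ≤ L := by linarith
    exact_mod_cast h1
  have hLr : (1 : ℝ) ≤ L := by exact_mod_cast hL1
  have hLx : (L : ℝ) ≤ x := by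
    refine hLle.trans ?_
    rw [div_le_iff₀ (by positivity)]
    nlinarith
  set R : ℕ := 2 * L ^ 4 with hR
  have hRr : (R : ℝ) = 2 * (L : ℝ) ^ 4 := by
    rw [hR]
    push_cast
    ring
  have hR0 : (0 : ℝ) < R := by
    rw [hRr]
    positivity
  have hRx : (R : ℝ) ≤ Real.exp (5 * l) := by
    have h4 : Real.exp (5 * l) = x ^ 5 := by
      have h5 : (5 : ℝ) * l = ((5 : ℕ) : ℝ) * l := by norm_num
      rw [h5, Real.exp_nat_mul, hl, Real.exp_log hx0]
    rw [h4, hRr]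
    have h5 : (L : ℝ) ^ 4 ≤ x ^ 4 := pow_le_pow_left₀ (by positivity) hLx 4
    have h6 : 0 < x ^ 4 := by positivity
    nlinarith
  have hRL : (R : ℝ) ^ L ≤ Real.exp (x / 8) := by
    calc (R : ℝ) ^ L ≤ Real.exp (5 * l) ^ L := pow_le_pow_left₀ hR0.le hRx L
      _ = Real.exp (L * (5 * l)) := (Real.exp_nat_mul _ _).symm
      _ ≤ Real.exp (x / 8) := by
        apply Real.exp_le_exp.mpr
        calc (L : ℝ) * (5 * l) ≤ x / (40 * l) * (5 * l) :=
              mul_le_mul_of_nonneg_right hLle (by positivity)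
          _ = x / 8 := by
            field_simp
            ring
  have hD : ((R : ℝ) ^ L) ^ 2 * (L : ℝ) ^ 4 ≤ Real.exp (x / 4) * x ^ 4 := by
    have h4 : ((R : ℝ) ^ L) ^ 2 ≤ Real.exp (x / 4) := by
      calc ((R : ℝ) ^ L) ^ 2 ≤ Real.exp (x / 8) ^ 2 := pow_le_pow_left₀ (by positivity) hRL 2
        _ = Real.exp (x / 4) := by
          rw [← Real.exp_nat_mul]
          congr 1
          push_cast
          ring
    have h5 : (L : ℝ) ^ 4 ≤ x ^ 4 := pow_le_pow_left₀ (by positivity) hLx 4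
    exact mul_le_mul h4 h5 (by positivity) (Real.exp_pos _).le
  have hhalf : Real.exp (x / 4) * Real.exp (x / 4) = Real.exp (x / 2) := by
    rw [← Real.exp_add]
    congr 1
    ring
  have hfull : Real.exp (x / 2) * Real.exp (x / 2) = Real.exp x := by
    rw [← Real.exp_add]
    congr 1
    ring
  have hD2 : 1728 * (((R : ℝ) ^ L) ^ 2 * (L : ℝ) ^ 4) < Real.exp (x / 2) := by
    rw [← hhalf]
    have h4 : 0 < Real.exp (x / 4) := Real.exp_pos _
    nlinarith
  have hbig : 4 * L ^ 4 * (R ^ L) ^ 2 ≤ m + 1 := by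
    have h4 : ((4 * L ^ 4 * (R ^ L) ^ 2 : ℕ) : ℝ) ≤ ((m + 1 : ℕ) : ℝ) := by
      rw [← hex]
      push_cast
      have h5 : 1 ≤ Real.exp (x / 2) := Real.one_le_exp (by positivity)
      have h6 : 0 ≤ ((R : ℝ) ^ L) ^ 2 * (L : ℝ) ^ 4 := by positivity
      nlinarith
    exact_mod_cast h4
  have h1 := h m L R C ρ' hL1 le_rfl hbig hρ0 (fun N => solves_mono (le_max_left _ _) (hC N)) hL2
  -- the contradiction
  have hs : √((m + 1 : ℕ) : ℝ) = Real.exp (x / 2) := by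
    rw [← hex, ← hfull]
    exact Real.sqrt_mul_self (Real.exp_pos _).le
  rw [hs] at hT
  set s : ℝ := Real.exp (x / 2) with hsdef
  have hs1 : 1 ≤ s := Real.one_le_exp (by positivity)
  have hexp : 2 ≤ Real.exp s := by
    have h2 := Real.add_one_le_exp s
    linarith
  have h2 : (C.numAdd : ℝ) + 1 ≤ Real.exp (2 * s) := by
    have h3 : Real.exp (2 * s) = Real.exp s * Real.exp s := by
      rw [← Real.exp_add]
      congr 1
      ring
    rw [h3]
    nlinarith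
  have h4 : ((C.numAdd : ℝ) + 1) ^ 3 ≤ Real.exp (6 * s) := by
    calc ((C.numAdd : ℝ) + 1) ^ 3 ≤ Real.exp (2 * s) ^ 3 := pow_le_pow_left₀ (by positivity) h2 3
      _ = Real.exp (6 * s) := by
        rw [← Real.exp_nat_mul]
        congr 1
        push_cast
        ring
  have h5 := Real.exp_le_exp.mp (h1.trans h4)
  have hden : (0 : ℝ) < 288 * ((R : ℝ) ^ L) ^ 2 * (L : ℝ) ^ 4 := by positivity
  rw [div_le_iff₀ hden] at h5
  have h6 : (m : ℝ) + 1 = s * s := by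
    rw [hfull, hex]
    push_cast
    ring
  rw [h6] at h5
  have hs0 : 0 < s := by linarith
  nlinarith

end Pool.Agent.T9h51.DP
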