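import Pool.Agent.T9h21.DP.Spec3

/-!
# DPA, piece (u8): the upper bound
-/

open Finset
open scoped ENNReal

set_option autoImplicit false

namespace Pool.Agent.T9h51.DP

open Pool.Agent.T9h48.SC Pool.Agent.T9h48.TSP Pool.Agent.T9h21.DP

theorem tsp_nonneg' {n : ℕ} (p : Fin n → ℤ × ℤ) : 0 ≤ tsp p :=
  Real.iInf_nonneg fun _ => Finset.sum_nonneg fun _ _ => Real.sqrt_nonneg _

/-- one point -/
theorem apx_one {n : ℕ} (A : Finset (Fin n)) (hA : A.card = 1) (ρ : ℝ) :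
    Apx A ρ (Fm.const 0) := by
  obtain ⟨a, rfl⟩ := Finset.card_eq_one.mp hA
  intro p
  refine ⟨⟨0, le_rfl, ⟨[a], by simp, by simp, ?_⟩, by simp⟩, fun r _ _ => by simp [Fm.eval]⟩
  simp [clen, eucl]

/-- the numbers of additions -/
def sz (n s₀ : ℕ) : ℕ → ℕ
  | 0 => s₀
  | i + 1 => (2 * n) ^ 4 * (2 * n + 2 + sz n s₀ i)

theorem sz_le (n s₀ : ℕ) (hn : 1 ≤ n) (i : ℕ) :
    sz n s₀ i + 1 ≤ (s₀ + 1) * ((2 * n) ^ 4 * (2 * n + 3)) ^ i := by
  induction i with
  | zero => simp [sz]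
  | succ i ih =>
    have h1 : 1 ≤ (2 * n) ^ 4 := Nat.one_le_pow _ _ (by omega)
    calc sz n s₀ (i + 1) + 1 ≤ (2 * n) ^ 4 * (2 * n + 2 + sz n s₀ i) + (2 * n) ^ 4 := by
          simp only [sz]
          omega
      _ = (2 * n) ^ 4 * (2 * n + 3 + sz n s₀ i) := by ring
      _ ≤ (2 * n) ^ 4 * ((2 * n + 3) * (sz n s₀ i + 1)) := by
          apply Nat.mul_le_mul_left
          nlinarith [Nat.zero_le (sz n s₀ i), Nat.zero_le n]
      _ = (2 * n) ^ 4 * (2 * n + 3) * (sz n s₀ i + 1) := by ring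
      _ ≤ (2 * n) ^ 4 * (2 * n + 3) * ((s₀ + 1) * ((2 * n) ^ 4 * (2 * n + 3)) ^ i) :=
          Nat.mul_le_mul_left _ ih
      _ = _ := by ring

/-- (u8) -/
theorem uMain (hCirc : U_circ) (hTour : U_tour) (hStep : U_step) (hExact : U_exact) : U_main := by
  obtain ⟨K₀, hK₀, hExact⟩ := hExact
  refine ⟨K₀ + 80, by positivity, ?_⟩
  intro n j hn hj
  have hnr : (2 : ℝ) ≤ n := by exact_mod_cast hn
  set X : ℝ := (3 / 4) ^ j * n + Real.log n ^ 2 with hX
  set s₀ : ℕ := ⌊Real.exp (K₀ * X)⌋₊ with hs₀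
  -- the induction
  have key : ∀ i : ℕ, i ≤ j → ∀ A : Finset (Fin n), A.Nonempty →
      (A.card : ℝ) ≤ (3 / 4) ^ (j - i) * n →
      ∃ F, Apx A (200 * i + 1) F ∧ F.adds ≤ sz n s₀ i := by
    intro i
    induction i with
    | zero =>
      intro _ A hA hcard
      obtain ⟨F, h1, h2⟩ := hExact n A hn hA
      refine ⟨F, by simpa using h1, ?_⟩
      simp only [sz]
      rw [hs₀]
      apply Nat.le_floor
      refine h2.trans (Real.exp_le_exp.mpr ?_)
      rw [Nat.sub_zero] at hcard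
      apply mul_le_mul_of_nonneg_left _ hK₀.le
      rw [hX]
      linarith
    | succ i ih =>
      intro hij A hA hcard
      have hpos := hA.card_pos
      rcases Nat.lt_or_ge A.card 2 with h | h
      · exact ⟨Fm.const 0, apx_one A (by omega) _, Nat.zero_le _⟩
      · obtain ⟨F, h1, h2⟩ := hStep n A (200 * i + 1) (sz n s₀ i) h (by positivity) (by
          intro B hBA hB hBc
          apply ih (by omega) B hB
          have h3 : (4 : ℝ) * B.card ≤ 3 * A.card := by exact_mod_cast hBc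
          have h4 : j - i = (j - (i + 1)) + 1 := by omega
          rw [h4, pow_succ]
          nlinarith)
        refine ⟨F, ?_, h2⟩
        have h3 : (200 : ℝ) * ((i + 1 : ℕ) : ℝ) + 1 = 200 * i + 1 + 200 := by
          push_cast
          ring
        rw [h3]
        exact h1
  have hne : (univ : Finset (Fin n)).Nonempty := ⟨⟨0, by omega⟩, mem_univ _⟩
  obtain ⟨F, hF1, hF2⟩ := key j le_rfl univ hne (by simp)
  obtain ⟨C, hC1, hC2⟩ := hCirc (Fin n × Fin n) F
  refine ⟨C, ?_, ?_⟩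
  · intro N p _ _
    obtain ⟨val, h1, h2⟩ := hC2 (dists p)
    refine ⟨val, h1, ?_, ?_⟩
    · rw [h2]
      obtain ⟨⟨r, hr0, hr1, hr2⟩, -⟩ := hF1 p
      exact (ENNReal.ofReal_le_ofReal (hTour.2.2.2 n p r (by omega) hr1)).trans hr2
    · rw [h2]
      exact (hF1 p).2 _ (tsp_nonneg' p) (hTour.2.2.1 n p (by omega))
  · rw [hC1]
    -- the number of additions
    set l : ℝ := Real.log n with hl
    have hn0 : (0 : ℝ) < n := by linarith
    have hl1 : 0.69 ≤ l := by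
      have h1 : Real.log 2 ≤ l := Real.log_le_log (by norm_num) hnr
      have h2 := Real.log_two_gt_d9
      linarith
    have h1 : (F.adds : ℝ) + 1 ≤ ((s₀ : ℝ) + 1) * ((2 * (n : ℝ)) ^ 4 * (2 * n + 3)) ^ j := by
      have h2 : F.adds + 1 ≤ (s₀ + 1) * ((2 * n) ^ 4 * (2 * n + 3)) ^ j :=
        (Nat.add_le_add_right hF2 1).trans (sz_le n s₀ (by omega) j)
      exact_mod_cast h2
    have h2 : (2 * (n : ℝ)) ^ 4 * (2 * n + 3) ≤ Real.exp (11 * l) := by
      have h3 : Real.exp (11 * l) = (n : ℝ) ^ 11 := by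
        have h4 : (11 : ℝ) * l = ((11 : ℕ) : ℝ) * l := by norm_num
        rw [h4, Real.exp_nat_mul, hl, Real.exp_log hn0]
      rw [h3]
      have h4 : 2 * (n : ℝ) ≤ n ^ 2 := by nlinarith
      have h5 : (2 * (n : ℝ)) ^ 4 ≤ (n ^ 2) ^ 4 := pow_le_pow_left₀ (by positivity) h4 4
      have h6 : 2 * (n : ℝ) + 3 ≤ n ^ 3 := by nlinarith [mul_self_nonneg ((n : ℝ) - 2)]
      calc (2 * (n : ℝ)) ^ 4 * (2 * n + 3) ≤ (n ^ 2) ^ 4 * n ^ 3 :=
            mul_le_mul h5 h6 (by positivity) (by positivity)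
        _ = (n : ℝ) ^ 11 := by ring
    have h3 : ((2 * (n : ℝ)) ^ 4 * (2 * n + 3)) ^ j ≤ Real.exp (77 * l ^ 2) := by
      calc ((2 * (n : ℝ)) ^ 4 * (2 * n + 3)) ^ j ≤ Real.exp (11 * l) ^ j :=
            pow_le_pow_left₀ (by positivity) h2 j
        _ = Real.exp (j * (11 * l)) := (Real.exp_nat_mul _ _).symm
        _ ≤ Real.exp (77 * l ^ 2) := by
          apply Real.exp_le_exp.mpr
          have h4 : (j : ℝ) * (11 * l) ≤ (5 * l + 1) * (11 * l) :=
            mul_le_mul_of_nonneg_right hj (by positivity)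
          nlinarith
    have hX0 : l ^ 2 ≤ X := by
      rw [hX]
      have : 0 ≤ (3 / 4 : ℝ) ^ j * n := by positivity
      linarith
    have h4 : (s₀ : ℝ) + 1 ≤ Real.exp (K₀ * X + 3 * l ^ 2) := by
      have h5 : (s₀ : ℝ) ≤ Real.exp (K₀ * X) := Nat.floor_le (Real.exp_pos _).le
      have h6 : 1 ≤ Real.exp (K₀ * X) := by
        apply Real.one_le_exp
        have : 0 ≤ l ^ 2 := sq_nonneg l
        exact mul_nonneg hK₀.le (by linarith)
      have h7 : 2 ≤ Real.exp (3 * l ^ 2) := by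
        have h8 := Real.add_one_le_exp (3 * l ^ 2)
        nlinarith
      rw [Real.exp_add]
      nlinarith
    have h5 : (F.adds : ℝ) ≤ Real.exp (K₀ * X + 3 * l ^ 2) * Real.exp (77 * l ^ 2) := by
      have h6 : ((s₀ : ℝ) + 1) * ((2 * (n : ℝ)) ^ 4 * (2 * n + 3)) ^ j ≤
          Real.exp (K₀ * X + 3 * l ^ 2) * Real.exp (77 * l ^ 2) :=
        mul_le_mul h4 h3 (by positivity) (Real.exp_pos _).le
      linarith
    refine h5.trans ?_
    rw [← Real.exp_add]
    apply Real.exp_le_exp.mpr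
    nlinarith

end Pool.Agent.T9h51.DP
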