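import Pool.Agent.T9h21.DP.Spec2

/-!
# DPA: the theorem from the explicit form
-/

open Finset
open scoped ENNReal

set_option autoImplicit false

namespace Pool.Agent.T9h51.DP

open Pool.Agent.T9h48.SC Pool.Agent.T9h48.TSP Pool.Agent.T9h21.DP

theorem main (h : ∀ m, S_fin2 m) : S_main := by
  refine ⟨Real.exp 7605, Real.one_lt_exp_iff.mpr (by norm_num), ?_⟩
  intro ρ hρ n hn C hC
  have hK : Real.exp 7605 ^ ρ = Real.exp (7605 * ρ) := by
    rw [← Real.exp_mul]
  rw [hK] at hn ⊢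
  have hn0 : (0 : ℝ) < n := lt_of_lt_of_le (Real.exp_pos _) hn
  have hn1 : 0 < n := by exact_mod_cast hn0
  obtain ⟨m, rfl⟩ : ∃ m, n = m + 1 := ⟨n - 1, by omega⟩
  set L : ℕ := ⌈504 * ρ + 2⌉₊ with hL
  have hL2 : 504 * ρ + 2 ≤ (L : ℝ) := Nat.le_ceil _
  have hL3 : (L : ℝ) ≤ 507 * ρ := by
    have := Nat.ceil_lt_add_one (by linarith : 0 ≤ 504 * ρ + 2)
    linarith
  have hL1 : 1 ≤ L := by
    have h1 : (1 : ℝ) ≤ L := by linarith
    exact_mod_cast h1
  have hLr : (1 : ℝ) ≤ L := by exact_mod_cast hL1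
  have hD : 1728 * (L : ℝ) ^ 4 * ((4 : ℝ) ^ L) ^ 2 ≤ Real.exp (7605 * ρ) := by
    have h1 : (L : ℝ) ≤ Real.exp L := by
      have := Real.add_one_le_exp (L : ℝ)
      linarith
    have h2 : (L : ℝ) ^ 4 ≤ Real.exp (4 * L) := by
      have h3 : (4 : ℝ) * L = ((4 : ℕ) : ℝ) * L := by norm_num
      rw [h3, Real.exp_nat_mul]
      exact pow_le_pow_left₀ (by positivity) h1 4
    have h3 : (2 : ℝ) ≤ Real.exp 1 := by
      have := Real.add_one_le_exp (1 : ℝ)
      linarith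
    have h4 : ((4 : ℝ) ^ L) ^ 2 ≤ Real.exp (4 * L) := by
      have h5 : ((4 : ℝ) ^ L) ^ 2 = ((2 : ℝ) ^ 4) ^ L := by
        rw [← pow_mul, mul_comm, pow_mul]
        norm_num
      have h6 : Real.exp (4 * L) = (Real.exp 1 ^ 4) ^ L := by
        rw [← pow_mul, ← Real.exp_nat_mul]
        congr 1
        push_cast
        ring
      rw [h5, h6]
      exact pow_le_pow_left₀ (by positivity) (pow_le_pow_left₀ (by norm_num) h3 4) L
    have h5 : (1728 : ℝ) ≤ Real.exp (7 * L) := by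
      have h6 : (1728 : ℝ) ≤ Real.exp 7 ^ 1 * 3 := by
        have h7 := Real.exp_one_gt_d9
        have h8 : Real.exp 7 = Real.exp 1 ^ 7 := by
          rw [← Real.exp_nat_mul]
          norm_num
        rw [h8]
        have h9 : (2.7 : ℝ) ^ 7 ≤ Real.exp 1 ^ 7 := pow_le_pow_left₀ (by norm_num) (by linarith) 7
        have h10 : (1000 : ℝ) ≤ 2.7 ^ 7 := by norm_num
        linarith
      have h7 : Real.exp 7 ^ 1 * 3 ≤ Real.exp (7 * L) := by
        have h8 : (8 : ℝ) ≤ 7 * L := by linarith [show (2 : ℝ) ≤ L by linarith]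
        have h9 : Real.exp 7 * Real.exp 1 * Real.exp 1 ≤ Real.exp (7 * L) := by
          rw [← Real.exp_add, ← Real.exp_add]
          apply Real.exp_le_exp.mpr
          linarith [show (504 : ℝ) ≤ L by linarith]
        have h10 : 0 < Real.exp 7 := Real.exp_pos _
        have h11 : (3 : ℝ) ≤ Real.exp 1 * Real.exp 1 := by nlinarith
        have h12 := mul_le_mul_of_nonneg_left h11 h10.le
        rw [pow_one]
        linarith
      linarith
    calc 1728 * (L : ℝ) ^ 4 * ((4 : ℝ) ^ L) ^ 2 ≤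
        Real.exp (7 * L) * Real.exp (4 * L) * Real.exp (4 * L) := by gcongr
      _ = Real.exp (15 * L) := by
        rw [← Real.exp_add, ← Real.exp_add]
        congr 1
        ring
      _ ≤ Real.exp (7605 * ρ) := by
        apply Real.exp_le_exp.mpr
        linarith
  have hpos : 0 < (L : ℝ) ^ 4 * ((4 : ℝ) ^ L) ^ 2 := by positivity
  have hbig : 4 * L ^ 4 * (4 ^ L) ^ 2 ≤ m + 1 := by
    have h4 : ((4 * L ^ 4 * (4 ^ L) ^ 2 : ℕ) : ℝ) ≤ ((m + 1 : ℕ) : ℝ) := by
      push_cast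
      push_cast at hn
      nlinarith
    exact_mod_cast h4
  have h1 := h m L 4 C ρ hL1 le_rfl hbig (by linarith) hC hL2
  set x : ℝ := ((m + 1 : ℕ) : ℝ) / Real.exp (7605 * ρ) with hx
  have hx1 : 1 ≤ x := by
    rw [hx, one_le_div (Real.exp_pos _)]
    exact hn
  have h2 : Real.exp (6 * x) ≤ ((C.numAdd : ℝ) + 1) ^ 3 := by
    refine le_trans (Real.exp_le_exp.mpr ?_) h1
    push_cast
    rw [le_div_iff₀ (by positivity), hx]
    have h3 : 6 * (((m + 1 : ℕ) : ℝ) / Real.exp (7605 * ρ)) * (288 * ((4 : ℝ) ^ L) ^ 2 * (L : ℝ) ^ 4) =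
        ((m + 1 : ℕ) : ℝ) * ((1728 * (L : ℝ) ^ 4 * ((4 : ℝ) ^ L) ^ 2) / Real.exp (7605 * ρ)) := by
      field_simp
      ring
    rw [h3]
    have h4 : (1728 * (L : ℝ) ^ 4 * ((4 : ℝ) ^ L) ^ 2) / Real.exp (7605 * ρ) ≤ 1 := by
      rw [div_le_one (Real.exp_pos _)]
      exact hD
    have h5 := mul_le_mul_of_nonneg_left h4 hn0.le
    rw [mul_one] at h5
    push_cast at h5 ⊢
    exact h5
  by_contra hcon
  push Not at hcon
  have hexp : 2 ≤ Real.exp x := by
    have h3 := Real.add_one_le_exp x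
    linarith
  have h3 : (C.numAdd : ℝ) + 1 < Real.exp (2 * x) := by
    have h4 : Real.exp (2 * x) = Real.exp x * Real.exp x := by
      rw [← Real.exp_add]
      congr 1
      ring
    rw [h4]
    nlinarith
  have h4 : ((C.numAdd : ℝ) + 1) ^ 3 < Real.exp (2 * x) ^ 3 :=
    pow_lt_pow_left₀ h3 (by positivity) (by norm_num)
  have h5 : Real.exp (2 * x) ^ 3 = Real.exp (6 * x) := by
    rw [← Real.exp_nat_mul]
    congr 1
    push_cast
    ring
  rw [h5] at h4
  exact absurd (h2.trans_lt h4) (lt_irrefl _)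

end Pool.Agent.T9h51.DP
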