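import Pool.Agent.T9h21.DP.Spec4

/-!
# DPA: the theorem with polynomially bounded coordinates from the explicit form
-/

open Finset
open scoped ENNReal

set_option autoImplicit false

namespace Pool.Agent.T9h51.DP

open Pool.Agent.T9h48.SC Pool.Agent.T9h48.TSP Pool.Agent.T9h21.DP

theorem vMain (h : ∀ m, V_fin m) : V_main := by
  refine ⟨Real.exp 20240, Real.one_lt_exp_iff.mpr (by norm_num), ?_⟩
  intro ρ hρ n hn C hC
  have hK : Real.exp 20240 ^ ρ = Real.exp (20240 * ρ) := by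
    rw [← Real.exp_mul]
  rw [hK] at hn ⊢
  have hn0 : (0 : ℝ) < n := lt_of_lt_of_le (Real.exp_pos _) hn
  have hn1 : 0 < n := by exact_mod_cast hn0
  obtain ⟨m, rfl⟩ : ∃ m, n = m + 1 := ⟨n - 1, by omega⟩
  set L : ℕ := ⌈1008 * ρ + 3⌉₊ with hL
  have hL2 : 1008 * ρ + 3 ≤ (L : ℝ) := Nat.le_ceil _
  have hL3 : (L : ℝ) ≤ 1012 * ρ := by
    have := Nat.ceil_lt_add_one (by linarith : 0 ≤ 1008 * ρ + 3)
    linarith
  have hLr : (1 : ℝ) ≤ L := by linarith
  have hL1 : 1 ≤ L := by exact_mod_cast hLr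
  have hD : 10368 * (L : ℝ) ^ 5 * ((4 : ℝ) ^ L) ^ 2 ≤ Real.exp (20240 * ρ) := by
    have h1 : (L : ℝ) ≤ Real.exp L := by
      have := Real.add_one_le_exp (L : ℝ)
      linarith
    have h2 : (L : ℝ) ^ 5 ≤ Real.exp (5 * L) := by
      have h3 : (5 : ℝ) * L = ((5 : ℕ) : ℝ) * L := by norm_num
      rw [h3, Real.exp_nat_mul]
      exact pow_le_pow_left₀ (by positivity) h1 5
    have h3 : (2 : ℝ) ≤ Real.exp 1 := by
      have := Real.add_one_le_exp (1 : ℝ)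
      linarith
    have h4 : ((4 : ℝ) ^ L) ^ 2 ≤ Real.exp (4 * L) := by
      have h5 : ((4 : ℝ) ^ L) ^ 2 = ((2 : ℝ) ^ 4) ^ L := by
        rw [← pow_mul, mul_comm, pow_mul]
        norm_num
      have h6 : Real.exp (4 * L) = (Real.exp 1 ^ 4) ^ L := by
        rw [← pow_mul, ← Real.exp_nat_mul]
        congr 1
        push_cast
        ring
      rw [h5, h6]
      exact pow_le_pow_left₀ (by positivity) (pow_le_pow_left₀ (by norm_num) h3 4) L
    have h5 : (10368 : ℝ) ≤ Real.exp (11 * L) := by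
      have := Real.add_one_le_exp (11 * (L : ℝ))
      linarith [show (1008 : ℝ) ≤ L by linarith]
    calc 10368 * (L : ℝ) ^ 5 * ((4 : ℝ) ^ L) ^ 2 ≤
        Real.exp (11 * L) * Real.exp (5 * L) * Real.exp (4 * L) := by gcongr
      _ = Real.exp (20 * L) := by
        rw [← Real.exp_add, ← Real.exp_add]
        congr 1
        ring
      _ ≤ Real.exp (20240 * ρ) := by
        apply Real.exp_le_exp.mpr
        linarith
  have hpow : (L : ℝ) ^ 5 = L ^ 4 * L := by ring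
  have hpos : 0 < (L : ℝ) ^ 4 * ((4 : ℝ) ^ L) ^ 2 := by positivity
  have hbig : 4 * L ^ 4 * (4 ^ L) ^ 2 ≤ m + 1 := by
    have h4 : ((4 * L ^ 4 * (4 ^ L) ^ 2 : ℕ) : ℝ) ≤ ((m + 1 : ℕ) : ℝ) := by
      refine le_trans ?_ (hD.trans hn)
      rw [hpow]
      push_cast
      nlinarith [mul_le_mul_of_nonneg_left hLr hpos.le]
    exact_mod_cast h4
  have hn2 : 20240 * ρ + 1 ≤ ((m + 1 : ℕ) : ℝ) := (Real.add_one_le_exp _).trans hn
  have hN1 : (m + 1) ^ 2 ≤ (m + 1) ^ 4 := Nat.pow_le_pow_right (by omega) (by norm_num)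
  have hN2 : 6 * ρ * ((m : ℝ) + 1) ^ 3 + 1 < (((m + 1) ^ 4 : ℕ) : ℝ) := by
    push_cast at hn2 ⊢
    have h1 : (1 : ℝ) ≤ ((m : ℝ) + 1) ^ 3 := one_le_pow₀ (by linarith)
    have h2 : ((m : ℝ) + 1) ^ 4 = ((m : ℝ) + 1) * ((m : ℝ) + 1) ^ 3 := by ring
    rw [h2]
    have h3 : (20240 * ρ + 1) * ((m : ℝ) + 1) ^ 3 ≤ ((m : ℝ) + 1) * ((m : ℝ) + 1) ^ 3 :=
      mul_le_mul_of_nonneg_right hn2 (by linarith)
    nlinarith [mul_le_mul_of_nonneg_left h1 (by linarith : (0 : ℝ) ≤ ρ)]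
  have h1 := h m L 4 ((m + 1) ^ 4) C ρ hL1 le_rfl hbig (by linarith) hN1 hN2 hC hL2
  set x : ℝ := ((m + 1 : ℕ) : ℝ) / Real.exp (20240 * ρ) with hx
  have hx1 : 1 ≤ x := by
    rw [hx, one_le_div (Real.exp_pos _)]
    exact hn
  have h2 : Real.exp (36 * L * x) ≤ (10 * L * ((C.numAdd : ℝ) + 1)) ^ 3 := by
    refine le_trans (Real.exp_le_exp.mpr ?_) h1
    rw [le_div_iff₀ (by positivity), hx]
    have h3 : 36 * L * (((m + 1 : ℕ) : ℝ) / Real.exp (20240 * ρ)) * (288 * ((4 : ℝ) ^ L) ^ 2 * (L : ℝ) ^ 4) =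
        ((m + 1 : ℕ) : ℝ) * ((10368 * (L : ℝ) ^ 5 * ((4 : ℝ) ^ L) ^ 2) / Real.exp (20240 * ρ)) := by
      field_simp
      ring
    push_cast at h3 ⊢
    rw [h3]
    have h4 : (10368 * (L : ℝ) ^ 5 * ((4 : ℝ) ^ L) ^ 2) / Real.exp (20240 * ρ) ≤ 1 := by
      rw [div_le_one (Real.exp_pos _)]
      exact hD
    have h5 := mul_le_mul_of_nonneg_left h4 hn0.le
    rw [mul_one] at h5
    push_cast at h5
    exact h5
  by_contra hcon
  push Not at hcon
  have hexp : 2 ≤ Real.exp x := by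
    have h3 := Real.add_one_le_exp x
    linarith
  have h3 : (C.numAdd : ℝ) + 1 < Real.exp (2 * x) := by
    have h4 : Real.exp (2 * x) = Real.exp x * Real.exp x := by
      rw [← Real.exp_add]
      congr 1
      ring
    rw [h4]
    nlinarith
  have h6 : 10 * (L : ℝ) ≤ Real.exp (10 * L * x) := by
    have h7 := Real.add_one_le_exp (10 * (L : ℝ) * x)
    nlinarith
  have h7 : 10 * (L : ℝ) * ((C.numAdd : ℝ) + 1) < Real.exp (12 * L * x) := by
    have h8 : Real.exp (10 * L * x) * Real.exp (2 * x) ≤ Real.exp (12 * L * x) := by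
      rw [← Real.exp_add]
      apply Real.exp_le_exp.mpr
      nlinarith
    calc 10 * (L : ℝ) * ((C.numAdd : ℝ) + 1) ≤ Real.exp (10 * L * x) * ((C.numAdd : ℝ) + 1) := by
          gcongr
      _ < Real.exp (10 * L * x) * Real.exp (2 * x) := mul_lt_mul_of_pos_left h3 (Real.exp_pos _)
      _ ≤ _ := h8
  have h4 : (10 * (L : ℝ) * ((C.numAdd : ℝ) + 1)) ^ 3 < Real.exp (12 * L * x) ^ 3 :=
    pow_lt_pow_left₀ h7 (by positivity) (by norm_num)
  have h5 : Real.exp (12 * L * x) ^ 3 = Real.exp (36 * L * x) := by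
    rw [← Real.exp_nat_mul]
    congr 1
    push_cast
    ring
  rw [h5] at h4
  exact absurd (h2.trans_lt h4) (lt_irrefl _)

end Pool.Agent.T9h51.DP
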